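import Mathlib

open Filter Topology Finset Polynomial

namespace Pool.Agent.LibTri68

/-- `(X - b^2)^2 ∏_{2 ≤ i < r} (X - b^(2i))` -/
noncomputable def A (b r : ℕ) : ℤ[X] :=
  (X - C ((b : ℤ) ^ 2)) ^ 2 * ∏ i ∈ Finset.Ico 2 r, (X - C ((b : ℤ) ^ (2 * i)))

/-- value of `A b r` at a real number -/
noncomputable def Av (b r : ℕ) (z : ℝ) : ℝ :=
  (z - (b : ℝ) ^ 2) ^ 2 * ∏ i ∈ Finset.Ico 2 r, (z - (b : ℝ) ^ (2 * i))

/-- coefficients of `A b r` -/
noncomputable def ac (b r i : ℕ) : ℤ := (A b r).coeff i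

lemma A_natDegree (b r : ℕ) (hr : 2 ≤ r) : (A b r).natDegree ≤ r := by
  unfold A
  refine (natDegree_mul_le).trans ?_
  have h1 : ((X - C ((b : ℤ) ^ 2)) ^ 2 : ℤ[X]).natDegree ≤ 2 := by
    refine (natDegree_pow_le).trans ?_
    rw [natDegree_X_sub_C]
  have h2 : (∏ i ∈ Finset.Ico 2 r, (X - C ((b : ℤ) ^ (2 * i))) : ℤ[X]).natDegree ≤ r - 2 := by
    refine (natDegree_prod_le _ _).trans ?_
    simp only [natDegree_X_sub_C]
    simp
  omega

lemma A_sum (b r : ℕ) (hr : 2 ≤ r) (z : ℝ) :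
    ∑ i ∈ range (r + 1), (ac b r i : ℝ) * z ^ i = Av b r z := by
  have h := Polynomial.aeval_eq_sum_range' (p := A b r) (n := r + 1)
    (Nat.lt_succ_of_le (A_natDegree b r hr)) z
  have h2 : (Polynomial.aeval z) (A b r) = Av b r z := by
    unfold A Av
    simp [map_mul, map_prod]
  rw [← h2, h]
  apply Finset.sum_congr rfl
  intro i _
  simp [ac]

lemma A_sum_one (b r : ℕ) (hr : 2 ≤ r) :
    ∑ i ∈ range (r + 1), (ac b r i : ℝ) = Av b r 1 := by
  have := A_sum b r hr 1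
  simpa using this

lemma Av_deriv (b r : ℕ) : HasDerivAt (Av b r) 0 ((b : ℝ) ^ 2) := by
  have h1 : HasDerivAt (fun z : ℝ => (z - (b : ℝ) ^ 2) ^ 2) 0 ((b : ℝ) ^ 2) := by
    have := ((hasDerivAt_id ((b : ℝ) ^ 2)).sub_const ((b : ℝ) ^ 2)).fun_pow 2
    simpa using this
  have h2 : DifferentiableAt ℝ (fun z : ℝ => ∏ i ∈ Finset.Ico 2 r, (z - (b : ℝ) ^ (2 * i)))
      ((b : ℝ) ^ 2) := by
    fun_prop
  have h3 := h1.mul h2.hasDerivAt
  refine h3.congr_deriv ?_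
  simp

lemma A_sum_deriv (b r : ℕ) (hr : 2 ≤ r) :
    ∑ i ∈ range (r + 1), (ac b r i : ℝ) * (i : ℝ) * ((b : ℝ) ^ 2) ^ i = 0 := by
  have h1 : HasDerivAt (fun z : ℝ => ∑ i ∈ range (r + 1), (ac b r i : ℝ) * z ^ i)
      (∑ i ∈ range (r + 1), (ac b r i : ℝ) * ((i : ℝ) * ((b : ℝ) ^ 2) ^ (i - 1)))
      ((b : ℝ) ^ 2) := by
    apply HasDerivAt.fun_sum
    intro i _
    exact (hasDerivAt_pow i _).const_mul _
  have h2 : HasDerivAt (fun z : ℝ => ∑ i ∈ range (r + 1), (ac b r i : ℝ) * z ^ i) 0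
      ((b : ℝ) ^ 2) := by
    have := Av_deriv b r
    have e : (fun z : ℝ => ∑ i ∈ range (r + 1), (ac b r i : ℝ) * z ^ i) = Av b r := by
      funext z
      exact A_sum b r hr z
    rw [e]
    exact this
  have h3 := h1.unique h2
  have h4 : ∑ i ∈ range (r + 1), (ac b r i : ℝ) * (i : ℝ) * ((b : ℝ) ^ 2) ^ i =
      (b : ℝ) ^ 2 * ∑ i ∈ range (r + 1),
        (ac b r i : ℝ) * ((i : ℝ) * ((b : ℝ) ^ 2) ^ (i - 1)) := by
    rw [Finset.mul_sum]
    apply Finset.sum_congr rfl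
    intro i _
    rcases Nat.eq_zero_or_pos i with h | h
    · subst h
      simp
    · obtain ⟨j, rfl⟩ : ∃ j, i = j + 1 := ⟨i - 1, by omega⟩
      rw [Nat.add_sub_cancel, pow_succ]
      ring
  rw [h4, h3, mul_zero]

lemma Av_zero (b r : ℕ) : Av b r ((b : ℝ) ^ 2) = 0 := by
  unfold Av
  simp

lemma Av_zero' (b r m : ℕ) (h2 : 2 ≤ m) (hm : m < r) : Av b r ((b : ℝ) ^ (2 * m)) = 0 := by
  unfold Av
  rw [Finset.prod_eq_zero (Finset.mem_Ico.2 ⟨h2, hm⟩)]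
  · simp
  · simp

lemma Av_bounds (b r m : ℕ) (hb : 2 ≤ b) (hr : 2 ≤ r) (hm : r ≤ m) :
    0 < Av b r ((b : ℝ) ^ (2 * m)) ∧ Av b r ((b : ℝ) ^ (2 * m)) ≤ ((b : ℝ) ^ (2 * m)) ^ r := by
  have hb1 : (1 : ℝ) < b := by exact_mod_cast (by omega : 1 < b)
  have hlt : ∀ i, i < m → (b : ℝ) ^ (2 * i) < (b : ℝ) ^ (2 * m) := fun i hi =>
    pow_lt_pow_right₀ hb1 (by omega)
  have h1 : (0 : ℝ) < (b : ℝ) ^ (2 * m) - (b : ℝ) ^ 2 := by
    have := hlt 1 (by omega)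
    simpa using this
  have hp : ∀ i ∈ Finset.Ico 2 r, (0 : ℝ) < (b : ℝ) ^ (2 * m) - (b : ℝ) ^ (2 * i) := by
    intro i hi
    have := hlt i (by have := (Finset.mem_Ico.1 hi).2; omega)
    linarith
  have h0 : (0 : ℝ) < (b : ℝ) ^ (2 * m) := by positivity
  unfold Av
  constructor
  · exact mul_pos (pow_pos h1 2) (Finset.prod_pos hp)
  · have h3 : ∏ i ∈ Finset.Ico 2 r, ((b : ℝ) ^ (2 * m) - (b : ℝ) ^ (2 * i)) ≤
        ((b : ℝ) ^ (2 * m)) ^ (r - 2) := by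
      have := Finset.prod_le_prod (fun i hi => (hp i hi).le)
        (g := fun _ => (b : ℝ) ^ (2 * m)) (fun i hi => by
          have : (0 : ℝ) ≤ (b : ℝ) ^ (2 * i) := by positivity
          linarith)
      simpa using this
    have h4 : ((b : ℝ) ^ (2 * m) - (b : ℝ) ^ 2) ^ 2 ≤ ((b : ℝ) ^ (2 * m)) ^ 2 := by
      apply pow_le_pow_left₀ h1.le
      have : (0 : ℝ) ≤ (b : ℝ) ^ 2 := by positivity
      linarith
    calc _ ≤ ((b : ℝ) ^ (2 * m)) ^ 2 * ((b : ℝ) ^ (2 * m)) ^ (r - 2) :=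
          mul_le_mul h4 h3 (Finset.prod_nonneg fun i hi => (hp i hi).le) (by positivity)
      _ = ((b : ℝ) ^ (2 * m)) ^ r := by
          rw [← pow_add]
          congr 1
          omega

/-- if `H' ≥ 0` on `(0, X]` and `H → 0` at `0+` then `H ≥ 0` -/
lemma nonneg_of_deriv (H H' : ℝ → ℝ) (X : ℝ)
    (hd : ∀ x, 0 < x → x ≤ X → HasDerivAt H (H' x) x)
    (hl : Tendsto H (𝓝[>] 0) (𝓝 0)) (hp : ∀ x, 0 < x → x ≤ X → 0 ≤ H' x) :
    ∀ x, 0 < x → x ≤ X → 0 ≤ H x := by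
  intro x h0 hx
  have hmono : MonotoneOn H (Set.Ioc 0 X) := by
    apply monotoneOn_of_deriv_nonneg (convex_Ioc 0 X)
    · intro y hy
      exact (hd y hy.1 hy.2).continuousAt.continuousWithinAt
    · intro y hy
      rw [interior_Ioc] at hy
      exact (hd y hy.1 hy.2.le).differentiableAt.differentiableWithinAt
    · intro y hy
      rw [interior_Ioc] at hy
      rw [(hd y hy.1 hy.2.le).deriv]
      exact hp y hy.1 hy.2.le
  refine le_of_tendsto hl ?_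
  filter_upwards [Ioc_mem_nhdsGT h0] with y hy
  exact hmono ⟨hy.1, hy.2.trans hx⟩ ⟨h0, hx⟩ hy.2

/-- strict version, and upper bound, for `0 < G' ≤ c x^k` -/
lemma integ (G G' : ℝ → ℝ) (X c : ℝ) (k : ℕ)
    (hd : ∀ x, 0 < x → x ≤ X → HasDerivAt G (G' x) x)
    (hl : Tendsto G (𝓝[>] 0) (𝓝 0))
    (hp : ∀ x, 0 < x → x ≤ X → 0 < G' x ∧ G' x ≤ c * x ^ k) :
    ∀ x, 0 < x → x ≤ X → 0 < G x ∧ G x ≤ c / (k + 1) * x ^ (k + 1) := by
  intro x h0 hx
  have hk : (k : ℝ) + 1 ≠ 0 := by positivity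
  constructor
  · have h1 := nonneg_of_deriv G G' X hd hl (fun y hy hy2 => (hp y hy hy2).1.le) (x / 2)
      (by linarith) (by linarith)
    have hmono : StrictMonoOn G (Set.Ioc 0 X) := by
      apply strictMonoOn_of_deriv_pos (convex_Ioc 0 X)
      · intro y hy
        exact (hd y hy.1 hy.2).continuousAt.continuousWithinAt
      · intro y hy
        rw [interior_Ioc] at hy
        rw [(hd y hy.1 hy.2.le).deriv]
        exact (hp y hy.1 hy.2.le).1
    have h2 : G (x / 2) < G x :=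
      hmono ⟨by linarith, by linarith⟩ ⟨h0, hx⟩ (by linarith)
    linarith
  · have h1 := nonneg_of_deriv (fun y => c / (k + 1) * y ^ (k + 1) - G y)
      (fun y => c * y ^ k - G' y) X ?_ ?_ (fun y hy hy2 => by linarith [(hp y hy hy2).2]) x h0 hx
    · linarith
    · intro y hy hy2
      have h3 : HasDerivAt (fun y : ℝ => c / (k + 1) * y ^ (k + 1)) (c * y ^ k) y := by
        have := (hasDerivAt_pow (k + 1) y).const_mul (c / ((k : ℝ) + 1))
        refine this.congr_deriv ?_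
        rw [Nat.add_sub_cancel]
        push_cast
        field_simp
      exact h3.sub (hd y hy hy2)
    · have h4 : Tendsto (fun y : ℝ => c / (k + 1) * y ^ (k + 1)) (𝓝[>] 0) (𝓝 0) := by
        have : Continuous (fun y : ℝ => c / ((k : ℝ) + 1) * y ^ (k + 1)) := by fun_prop
        have h5 := this.tendsto 0
        simp only [ne_eq, Nat.add_eq_zero_iff, one_ne_zero, and_false, not_false_eq_true,
          zero_pow, mul_zero] at h5
        exact h5.mono_left nhdsWithin_le_nhds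
      simpa using h4.sub hl

end Pool.Agent.LibTri68
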