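import Pool.Agent.LibTri68.Lac1
import Pool.Agent.LibTri77.Dist

open Filter Topology Finset
open Pool.Agent.LibTri77

namespace Pool.Agent.LibTri68

/-- combination of weight 3 values -/
noncomputable def F0 (b r : ℕ) (x : ℝ) : ℝ :=
  ∑ i ∈ range (r + 1), (ac b r i : ℝ) * U 3 ((b : ℝ) ^ i * x) - Av b r 1 * U 3 0

noncomputable def F1 (b r : ℕ) (x : ℝ) : ℝ :=
  2 * Real.pi * ∑ i ∈ range (r + 1), (ac b r i : ℝ) * ((b : ℝ) ^ i * U 2 ((b : ℝ) ^ i * x))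

noncomputable def F2 (b r : ℕ) (x : ℝ) : ℝ :=
  4 * Real.pi ^ 2 * ∑ i ∈ range (r + 1),
    (ac b r i : ℝ) * (((b : ℝ) ^ i) ^ 2 * U1 ((b : ℝ) ^ i * x))

noncomputable def F3 (b r : ℕ) (x : ℝ) : ℝ :=
  -(4 * Real.pi ^ 2) * ∑ i ∈ range (r + 1),
    (ac b r i : ℝ) * (((b : ℝ) ^ i) ^ 3 * ct ((b : ℝ) ^ i * x))

lemma arg_bounds (b r i : ℕ) (x : ℝ) (hb : 2 ≤ b) (hi : i ≤ r) (h0 : 0 < x)
    (hx : x ≤ 1 / (2 * (b : ℝ) ^ r)) : 0 < (b : ℝ) ^ i * x ∧ (b : ℝ) ^ i * x ≤ 1 / 2 := by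
  have hb1 : (1 : ℝ) ≤ b := by exact_mod_cast (by omega : 1 ≤ b)
  have hbi : (0 : ℝ) < (b : ℝ) ^ i := by positivity
  have hbr : (0 : ℝ) < (b : ℝ) ^ r := by positivity
  refine ⟨mul_pos hbi h0, ?_⟩
  have h1 : (b : ℝ) ^ i ≤ (b : ℝ) ^ r := pow_le_pow_right₀ hb1 hi
  calc (b : ℝ) ^ i * x ≤ (b : ℝ) ^ r * (1 / (2 * (b : ℝ) ^ r)) :=
        mul_le_mul h1 hx h0.le hbr.le
    _ = 1 / 2 := by field_simp

lemma F0_deriv (b r : ℕ) (x : ℝ) : HasDerivAt (F0 b r) (F1 b r x) x := by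
  unfold F0 F1
  rw [Finset.mul_sum]
  refine HasDerivAt.sub_const _ (HasDerivAt.fun_sum ?_)
  intro i _
  have h1 := (U_deriv 2 le_rfl ((b : ℝ) ^ i * x)).comp x ((hasDerivAt_id x).const_mul ((b : ℝ) ^ i))
  have h2 := h1.const_mul (ac b r i : ℝ)
  refine h2.congr_deriv ?_
  ring

lemma F1_deriv (b r : ℕ) (x : ℝ) (hb : 2 ≤ b) (h0 : 0 < x)
    (hx : x ≤ 1 / (2 * (b : ℝ) ^ r)) : HasDerivAt (F1 b r) (F2 b r x) x := by
  unfold F1 F2
  rw [show 4 * Real.pi ^ 2 * ∑ i ∈ range (r + 1),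
    (ac b r i : ℝ) * (((b : ℝ) ^ i) ^ 2 * U1 ((b : ℝ) ^ i * x)) = 2 * Real.pi *
      ∑ i ∈ range (r + 1), (ac b r i : ℝ) * ((b : ℝ) ^ i *
        (2 * Real.pi * U1 ((b : ℝ) ^ i * x) * (b : ℝ) ^ i)) by
    rw [Finset.mul_sum, Finset.mul_sum]
    apply Finset.sum_congr rfl
    intro i _
    ring]
  refine HasDerivAt.const_mul _ (HasDerivAt.fun_sum ?_)
  intro i hi
  have hb := arg_bounds b r i x hb (Nat.lt_succ_iff.1 (Finset.mem_range.1 hi)) h0 hx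
  have h1 := (U2_deriv' ((b : ℝ) ^ i * x) hb.1 (by linarith)).comp x
    ((hasDerivAt_id x).const_mul ((b : ℝ) ^ i))
  have h2 := (h1.const_mul ((b : ℝ) ^ i)).const_mul (ac b r i : ℝ)
  refine h2.congr_deriv ?_
  ring

lemma F2_deriv (b r : ℕ) (x : ℝ) (hb : 2 ≤ b) (h0 : 0 < x)
    (hx : x ≤ 1 / (2 * (b : ℝ) ^ r)) : HasDerivAt (F2 b r) (F3 b r x) x := by
  unfold F2 F3
  rw [show -(4 * Real.pi ^ 2) * ∑ i ∈ range (r + 1),
    (ac b r i : ℝ) * (((b : ℝ) ^ i) ^ 3 * ct ((b : ℝ) ^ i * x)) = 4 * Real.pi ^ 2 *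
      ∑ i ∈ range (r + 1), (ac b r i : ℝ) * (((b : ℝ) ^ i) ^ 2 *
        (-ct ((b : ℝ) ^ i * x) * (b : ℝ) ^ i)) by
    rw [Finset.mul_sum, Finset.mul_sum]
    apply Finset.sum_congr rfl
    intro i _
    ring]
  refine HasDerivAt.const_mul _ (HasDerivAt.fun_sum ?_)
  intro i hi
  have hb := arg_bounds b r i x hb (Nat.lt_succ_iff.1 (Finset.mem_range.1 hi)) h0 hx
  have h1 := (U1_deriv ((b : ℝ) ^ i * x) hb.1 (by linarith)).comp x
    ((hasDerivAt_id x).const_mul ((b : ℝ) ^ i))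
  have h2 := (h1.const_mul (((b : ℝ) ^ i) ^ 2)).const_mul (ac b r i : ℝ)
  refine h2.congr_deriv ?_
  ring

lemma F0_lim (b r : ℕ) (hr : 2 ≤ r) : Tendsto (F0 b r) (𝓝[>] 0) (𝓝 0) := by
  have h1 : Tendsto (F0 b r) (𝓝 0) (𝓝 (F0 b r 0)) := (F0_deriv b r 0).continuousAt
  have h2 : F0 b r 0 = 0 := by
    unfold F0
    simp only [mul_zero]
    rw [← Finset.sum_mul, A_sum_one b r hr]
    ring
  rw [h2] at h1
  exact h1.mono_left nhdsWithin_le_nhds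

lemma U2_cont : Continuous (U 2) := by
  unfold U
  apply continuous_tsum (u := fun n : ℕ => 1 / ((n : ℝ) + 1) ^ 2) _ (summable_pow 2 le_rfl)
    (fun n x => tm_bound 2 n x)
  intro n
  unfold tm
  fun_prop

lemma U2_zero : U 2 0 = 0 := by
  unfold U tm
  have : ∀ n : ℕ, Real.cos (2 * Real.pi * ((n : ℝ) + 1) * 0 - (((2 : ℕ) : ℝ) - 1) * Real.pi / 2) /
      ((n : ℝ) + 1) ^ 2 = 0 := by
    intro n
    have e : 2 * Real.pi * ((n : ℝ) + 1) * 0 - (((2 : ℕ) : ℝ) - 1) * Real.pi / 2 =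
        -(Real.pi / 2) := by
      push_cast
      ring
    rw [e, Real.cos_neg, Real.cos_pi_div_two, zero_div]
  simp only [this]
  exact tsum_zero

lemma F1_lim (b r : ℕ) : Tendsto (F1 b r) (𝓝[>] 0) (𝓝 0) := by
  have hc : Continuous (F1 b r) := by
    unfold F1
    have := U2_cont
    fun_prop
  have h1 := hc.tendsto 0
  have h2 : F1 b r 0 = 0 := by
    unfold F1
    simp [U2_zero]
  rw [h2] at h1
  exact h1.mono_left nhdsWithin_le_nhds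

lemma U1_sinc (s : ℝ) (h0 : 0 < s) (h1 : s < 1) :
    U1 s = -(Real.log (2 * Real.pi * s) + Real.log (Real.sinc (Real.pi * s))) := by
  have hpi := Real.pi_pos
  have hs : Real.pi * s ≠ 0 := by positivity
  have hsin := sin_pos1 s h0 h1
  unfold U1
  rw [Real.sinc_of_ne_zero hs, ← Real.log_mul (by positivity) (by positivity)]
  congr 2
  field_simp

lemma F2_eq (b r : ℕ) (x : ℝ) (hb : 2 ≤ b) (hr : 2 ≤ r) (h0 : 0 < x)
    (hx : x ≤ 1 / (2 * (b : ℝ) ^ r)) :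
    F2 b r x = 4 * Real.pi ^ 2 * ∑ i ∈ range (r + 1),
      (ac b r i : ℝ) * (((b : ℝ) ^ i) ^ 2 * -Real.log (Real.sinc (Real.pi * ((b : ℝ) ^ i * x)))) := by
  have hb0 : (0 : ℝ) < b := by exact_mod_cast (by omega : 0 < b)
  have hpi := Real.pi_pos
  unfold F2
  have e : ∀ i ∈ range (r + 1), (ac b r i : ℝ) * (((b : ℝ) ^ i) ^ 2 * U1 ((b : ℝ) ^ i * x)) =
      (ac b r i : ℝ) * (((b : ℝ) ^ i) ^ 2 * -Real.log (Real.sinc (Real.pi * ((b : ℝ) ^ i * x)))) +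
        (-Real.log (2 * Real.pi * x) * ((ac b r i : ℝ) * ((b : ℝ) ^ 2) ^ i) +
        -Real.log b * ((ac b r i : ℝ) * (i : ℝ) * ((b : ℝ) ^ 2) ^ i)) := by
    intro i hi
    have hbb := arg_bounds b r i x hb (Nat.lt_succ_iff.1 (Finset.mem_range.1 hi)) h0 hx
    rw [U1_sinc _ hbb.1 (by linarith)]
    have e1 : 2 * Real.pi * ((b : ℝ) ^ i * x) = (2 * Real.pi * x) * (b : ℝ) ^ i := by ring
    rw [e1, Real.log_mul (by positivity) (by positivity), Real.log_pow,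
      show ((b : ℝ) ^ i) ^ 2 = ((b : ℝ) ^ 2) ^ i by rw [← pow_mul, ← pow_mul, mul_comm]]
    ring
  rw [Finset.sum_congr rfl e, Finset.sum_add_distrib, Finset.sum_add_distrib, ← Finset.mul_sum,
    ← Finset.mul_sum, A_sum b r hr, Av_zero, A_sum_deriv b r hr]
  ring

lemma F2_lim (b r : ℕ) (hb : 2 ≤ b) (hr : 2 ≤ r) : Tendsto (F2 b r) (𝓝[>] 0) (𝓝 0) := by
  have hb0 : (0 : ℝ) < b := by exact_mod_cast (by omega : 0 < b)
  have h1 : Tendsto (fun x : ℝ => 4 * Real.pi ^ 2 * ∑ i ∈ range (r + 1),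
      (ac b r i : ℝ) * (((b : ℝ) ^ i) ^ 2 * -Real.log (Real.sinc (Real.pi * ((b : ℝ) ^ i * x)))))
      (𝓝 0) (𝓝 0) := by
    have h2 : ∀ i ∈ range (r + 1), Tendsto (fun x : ℝ => (ac b r i : ℝ) * (((b : ℝ) ^ i) ^ 2 *
        -Real.log (Real.sinc (Real.pi * ((b : ℝ) ^ i * x))))) (𝓝 0) (𝓝 0) := by
      intro i _
      have h3 : ContinuousAt (fun x : ℝ => (ac b r i : ℝ) * (((b : ℝ) ^ i) ^ 2 *
        -Real.log (Real.sinc (Real.pi * ((b : ℝ) ^ i * x))))) 0 := by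
        have h4 : ContinuousAt (fun x : ℝ => Real.sinc (Real.pi * ((b : ℝ) ^ i * x))) 0 := by
          apply Continuous.continuousAt
          exact Real.continuous_sinc.comp (by fun_prop)
        have h5 := h4.log (by simp)
        exact ((h5.neg.const_mul _).const_mul _)
      have h6 := h3.tendsto
      simpa using h6
    have h7 := (tendsto_finset_sum _ h2).const_mul (4 * Real.pi ^ 2)
    simpa using h7
  refine (h1.mono_left nhdsWithin_le_nhds).congr' ?_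
  filter_upwards [Ioc_mem_nhdsGT (show (0 : ℝ) < 1 / (2 * (b : ℝ) ^ r) by positivity)] with y hy
  exact (F2_eq b r y hb hr hy.1 hy.2).symm

end Pool.Agent.LibTri68
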