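import Pool.Agent.LibTri68.Lac2

open Filter Topology Finset
open Pool.Agent.LibTri77

namespace Pool.Agent.LibTri68

/-- the `n`-th term -/
noncomputable def G (b r n : ℕ) (x : ℝ) : ℝ :=
  ∑ i ∈ range (r + 1), (ac b r i : ℝ) * (((b : ℝ) ^ i) ^ 4 /
    (((n : ℝ) + 1) ^ 2 - ((b : ℝ) ^ i * x) ^ 2))

lemma F3_hasSum (b r : ℕ) (x : ℝ) (hb : 2 ≤ b) (hr : 2 ≤ r) (h0 : 0 < x)
    (hx : x ≤ 1 / (2 * (b : ℝ) ^ r)) :
    HasSum (fun n : ℕ => 8 * Real.pi ^ 2 * x * G b r n x) (F3 b r x) := by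
  have hb0 : (0 : ℝ) < b := by exact_mod_cast (by omega : 0 < b)
  have h1 : ∀ i ∈ range (r + 1), HasSum (fun n : ℕ => (ac b r i : ℝ) * (((b : ℝ) ^ i) ^ 3 *
      (1 / ((b : ℝ) ^ i * x + -((n : ℝ) + 1)) + 1 / ((b : ℝ) ^ i * x + ((n : ℝ) + 1)))))
      ((ac b r i : ℝ) * (((b : ℝ) ^ i) ^ 3 * (ct ((b : ℝ) ^ i * x) - 1 / ((b : ℝ) ^ i * x + 0)))) := by
    intro i hi
    have hbb := arg_bounds b r i x hb (Nat.lt_succ_iff.1 (Finset.mem_range.1 hi)) h0 hx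
    exact ((ct_hasSum _ hbb.1 (by linarith)).mul_left _).mul_left _
  have h2 := (hasSum_sum h1).mul_left (-(4 * Real.pi ^ 2))
  have e : -(4 * Real.pi ^ 2) * ∑ i ∈ range (r + 1), (ac b r i : ℝ) * (((b : ℝ) ^ i) ^ 3 *
      (ct ((b : ℝ) ^ i * x) - 1 / ((b : ℝ) ^ i * x + 0))) = F3 b r x := by
    unfold F3
    congr 1
    have e1 : ∀ i ∈ range (r + 1), (ac b r i : ℝ) * (((b : ℝ) ^ i) ^ 3 *
      (ct ((b : ℝ) ^ i * x) - 1 / ((b : ℝ) ^ i * x + 0))) =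
        (ac b r i : ℝ) * (((b : ℝ) ^ i) ^ 3 * ct ((b : ℝ) ^ i * x)) -
          (1 / x) * ((ac b r i : ℝ) * ((b : ℝ) ^ 2) ^ i) := by
      intro i _
      have : (b : ℝ) ^ i ≠ 0 := by positivity
      rw [show ((b : ℝ) ^ 2) ^ i = ((b : ℝ) ^ i) ^ 2 by rw [← pow_mul, ← pow_mul, mul_comm]]
      field_simp
      ring
    rw [Finset.sum_congr rfl e1, Finset.sum_sub_distrib, ← Finset.mul_sum, A_sum b r hr, Av_zero,
      mul_zero, sub_zero]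
  rw [e] at h2
  refine h2.congr_fun ?_
  intro n
  unfold G
  rw [Finset.mul_sum, Finset.mul_sum]
  apply Finset.sum_congr rfl
  intro i hi
  have hbb := arg_bounds b r i x hb (Nat.lt_succ_iff.1 (Finset.mem_range.1 hi)) h0 hx
  have hn : (0 : ℝ) ≤ n := Nat.cast_nonneg n
  have e2 : (b : ℝ) ^ i * x + -((n : ℝ) + 1) ≠ 0 := by
    intro h
    linarith [hbb.2]
  have e3 : (b : ℝ) ^ i * x + ((n : ℝ) + 1) ≠ 0 := by
    have := hbb.1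
    positivity
  have e4 : ((n : ℝ) + 1) ^ 2 - ((b : ℝ) ^ i * x) ^ 2 ≠ 0 := by
    have : ((n : ℝ) + 1) ^ 2 - ((b : ℝ) ^ i * x) ^ 2 =
      -(((b : ℝ) ^ i * x + -((n : ℝ) + 1)) * ((b : ℝ) ^ i * x + ((n : ℝ) + 1))) := by ring
    rw [this]
    exact neg_ne_zero.2 (mul_ne_zero e2 e3)
  have e5 : 1 / ((b : ℝ) ^ i * x + -((n : ℝ) + 1)) + 1 / ((b : ℝ) ^ i * x + ((n : ℝ) + 1)) =
      -(2 * ((b : ℝ) ^ i * x)) / (((n : ℝ) + 1) ^ 2 - ((b : ℝ) ^ i * x) ^ 2) := by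
    rw [div_add_div _ _ e2 e3, div_eq_div_iff (mul_ne_zero e2 e3) e4]
    ring
  rw [e5]
  field_simp
  ring

lemma G_hasSum (b r n : ℕ) (x : ℝ) (hb : 2 ≤ b) (hr : 2 ≤ r) (h0 : 0 < x)
    (hx : x ≤ 1 / (2 * (b : ℝ) ^ r)) :
    HasSum (fun l : ℕ => (x / ((n : ℝ) + 1)) ^ (2 * l) / ((n : ℝ) + 1) ^ 2 *
      Av b r ((b : ℝ) ^ (2 * (l + 2)))) (G b r n x) := by
  have hn : (0 : ℝ) ≤ n := Nat.cast_nonneg n
  have h1 : ∀ i ∈ range (r + 1), HasSum (fun l : ℕ => (ac b r i : ℝ) * (((b : ℝ) ^ i) ^ 4 *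
      (((((b : ℝ) ^ i * x) / ((n : ℝ) + 1)) ^ 2) ^ l / ((n : ℝ) + 1) ^ 2)))
      ((ac b r i : ℝ) * (((b : ℝ) ^ i) ^ 4 / (((n : ℝ) + 1) ^ 2 - ((b : ℝ) ^ i * x) ^ 2))) := by
    intro i hi
    have hbb := arg_bounds b r i x hb (Nat.lt_succ_iff.1 (Finset.mem_range.1 hi)) h0 hx
    have h2 : ((b : ℝ) ^ i * x) / ((n : ℝ) + 1) ≤ 1 / 2 := by
      rw [div_le_iff₀ (by positivity)]
      nlinarith [hbb.2]
    have h2' : 0 ≤ ((b : ℝ) ^ i * x) / ((n : ℝ) + 1) := by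
      have := hbb.1
      positivity
    have h3 : (((b : ℝ) ^ i * x) / ((n : ℝ) + 1)) ^ 2 < 1 := by nlinarith
    have h4 := (hasSum_geometric_of_lt_one (by positivity) h3).div_const (((n : ℝ) + 1) ^ 2)
    have h5 := (h4.mul_left (((b : ℝ) ^ i) ^ 4)).mul_left (ac b r i : ℝ)
    have e4 : ((n : ℝ) + 1) ^ 2 - ((b : ℝ) ^ i * x) ^ 2 ≠ 0 := by
      have e6 : ((n : ℝ) + 1) ^ 2 * (1 - (((b : ℝ) ^ i * x) / ((n : ℝ) + 1)) ^ 2) =
        ((n : ℝ) + 1) ^ 2 - ((b : ℝ) ^ i * x) ^ 2 := by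
        field_simp
      rw [← e6]
      have : 0 < 1 - (((b : ℝ) ^ i * x) / ((n : ℝ) + 1)) ^ 2 := by linarith
      positivity
    have e7 : 1 - (((b : ℝ) ^ i * x) / ((n : ℝ) + 1)) ^ 2 ≠ 0 := by
      intro h
      linarith
    have e8 : ((b : ℝ) ^ i) ^ 4 / (((n : ℝ) + 1) ^ 2 - ((b : ℝ) ^ i * x) ^ 2) =
        ((b : ℝ) ^ i) ^ 4 * ((1 - (((b : ℝ) ^ i * x) / ((n : ℝ) + 1)) ^ 2)⁻¹ /
          ((n : ℝ) + 1) ^ 2) := by
      have hn1 : ((n : ℝ) + 1) ^ 2 ≠ 0 := by positivity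
      rw [← one_div, div_div, mul_one_div]
      congr 1
      field_simp
    rw [e8]
    exact h5
  have h6 := hasSum_sum h1
  unfold G
  refine h6.congr_fun ?_
  intro l
  rw [← A_sum b r hr, Finset.mul_sum]
  apply Finset.sum_congr rfl
  intro i _
  have e1 : ((((b : ℝ) ^ i * x) / ((n : ℝ) + 1)) ^ 2) ^ l =
      ((b : ℝ) ^ i) ^ (2 * l) * (x / ((n : ℝ) + 1)) ^ (2 * l) := by
    rw [← pow_mul, mul_div_assoc, mul_pow]
  have e2 : ((b : ℝ) ^ (2 * (l + 2))) ^ i = ((b : ℝ) ^ i) ^ (2 * l) * ((b : ℝ) ^ i) ^ 4 := by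
    rw [← pow_add, ← pow_mul, ← pow_mul]
    congr 1
    ring
  rw [e1, e2]
  ring

lemma G_bounds (b r n : ℕ) (x : ℝ) (hb : 2 ≤ b) (hr : 2 ≤ r) (h0 : 0 < x)
    (hx : x ≤ 1 / (2 * (b : ℝ) ^ r)) :
    0 < G b r n x ∧ G b r n x ≤ 4 / 3 * (b : ℝ) ^ (2 * r ^ 2) * x ^ (2 * r - 4) *
      (1 / ((n : ℝ) + 1) ^ 2) := by
  have hn : (0 : ℝ) ≤ n := Nat.cast_nonneg n
  have hb0 : (0 : ℝ) < b := by exact_mod_cast (by omega : 0 < b)
  obtain ⟨s, rfl⟩ : ∃ s, r = s + 2 := ⟨r - 2, by omega⟩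
  have hs := G_hasSum b (s + 2) n x hb hr h0 hx
  have hz : ∀ l, l < s → (x / ((n : ℝ) + 1)) ^ (2 * l) / ((n : ℝ) + 1) ^ 2 *
      Av b (s + 2) ((b : ℝ) ^ (2 * (l + 2))) = 0 := by
    intro l hl
    rw [Av_zero' b (s + 2) (l + 2) (by omega) (by omega), mul_zero]
  have hs2 : HasSum (fun l : ℕ => (x / ((n : ℝ) + 1)) ^ (2 * (l + s)) / ((n : ℝ) + 1) ^ 2 *
      Av b (s + 2) ((b : ℝ) ^ (2 * (l + s + 2)))) (G b (s + 2) n x) := by
    rw [← hasSum_nat_add_iff' s] at hs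
    rw [Finset.sum_eq_zero (fun l hl => hz l (Finset.mem_range.1 hl)), sub_zero] at hs
    exact hs
  have hterm : ∀ l : ℕ, 0 < (x / ((n : ℝ) + 1)) ^ (2 * (l + s)) / ((n : ℝ) + 1) ^ 2 *
      Av b (s + 2) ((b : ℝ) ^ (2 * (l + s + 2))) := fun l =>
    mul_pos (by positivity) (Av_bounds b (s + 2) (l + s + 2) hb hr (by omega)).1
  constructor
  · have h1 := hs2.summable.sum_add_tsum_nat_add 1
    rw [hs2.tsum_eq] at h1
    rw [← h1]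
    refine add_pos_of_pos_of_nonneg ?_ (tsum_nonneg fun l => (hterm _).le)
    simpa using hterm 0
  · have hy : x * (b : ℝ) ^ (s + 2) ≤ 1 / 2 := by
      have hbr : (0 : ℝ) < (b : ℝ) ^ (s + 2) := by positivity
      calc x * (b : ℝ) ^ (s + 2) ≤ 1 / (2 * (b : ℝ) ^ (s + 2)) * (b : ℝ) ^ (s + 2) :=
            mul_le_mul_of_nonneg_right hx hbr.le
        _ = 1 / 2 := by field_simp
    have hy0 : 0 < x * (b : ℝ) ^ (s + 2) := by positivity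
    have hg : HasSum (fun l : ℕ => (b : ℝ) ^ (2 * (s + 2) ^ 2) * x ^ (2 * s) *
        (1 / ((n : ℝ) + 1) ^ 2) * ((1 / 4 : ℝ) ^ l))
        ((b : ℝ) ^ (2 * (s + 2) ^ 2) * x ^ (2 * s) *
        (1 / ((n : ℝ) + 1) ^ 2) * (1 - 1 / 4)⁻¹) :=
      (hasSum_geometric_of_lt_one (by norm_num) (by norm_num)).mul_left _
    have hle := hasSum_le (fun l => ?_) hs2 hg
    · refine hle.trans (le_of_eq ?_)
      rw [show 2 * (s + 2) - 4 = 2 * s by omega]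
      ring
    · have hA := (Av_bounds b (s + 2) (l + s + 2) hb hr (by omega)).2
      have h1 : (x / ((n : ℝ) + 1)) ^ (2 * (l + s)) ≤ x ^ (2 * (l + s)) := by
        apply pow_le_pow_left₀ (by positivity)
        rw [div_le_iff₀ (by positivity)]
        nlinarith
      have h2 : (x * (b : ℝ) ^ (s + 2)) ^ (2 * l) ≤ (1 / 4 : ℝ) ^ l := by
        rw [pow_mul]
        apply pow_le_pow_left₀ (by positivity)
        nlinarith
      calc (x / ((n : ℝ) + 1)) ^ (2 * (l + s)) / ((n : ℝ) + 1) ^ 2 *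
            Av b (s + 2) ((b : ℝ) ^ (2 * (l + s + 2)))
          ≤ x ^ (2 * (l + s)) / ((n : ℝ) + 1) ^ 2 * ((b : ℝ) ^ (2 * (l + s + 2))) ^ (s + 2) := by
            apply mul_le_mul _ hA
              (Av_bounds b (s + 2) (l + s + 2) hb hr (by omega)).1.le (by positivity)
            exact div_le_div_of_nonneg_right h1 (by positivity)
        _ = (b : ℝ) ^ (2 * (s + 2) ^ 2) * x ^ (2 * s) * (1 / ((n : ℝ) + 1) ^ 2) *
              (x * (b : ℝ) ^ (s + 2)) ^ (2 * l) := by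
            rw [mul_pow, ← pow_mul, ← pow_mul,
              show 2 * (l + s) = 2 * s + 2 * l by ring, pow_add,
              show 2 * (l + s + 2) * (s + 2) = 2 * (s + 2) ^ 2 + (s + 2) * (2 * l) by ring, pow_add]
            ring
        _ ≤ _ := mul_le_mul_of_nonneg_left h2 (by positivity)

end Pool.Agent.LibTri68
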