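import Pool.Agent.LibTri68.Lac3

open Filter Topology Finset
open Pool.Agent.LibTri77

namespace Pool.Agent.LibTri68

lemma F3_bounds (b s : ℕ) (x : ℝ) (hb : 2 ≤ b) (h0 : 0 < x)
    (hx : x ≤ 1 / (2 * (b : ℝ) ^ (s + 2))) :
    0 < F3 b (s + 2) x ∧
      F3 b (s + 2) x ≤ 16 * Real.pi ^ 4 / 9 * (b : ℝ) ^ (2 * (s + 2) ^ 2) * x ^ (2 * s + 1) := by
  have hb0 : (0 : ℝ) < b := by exact_mod_cast (by omega : 0 < b)
  have hpi := Real.pi_pos
  have hs := F3_hasSum b (s + 2) x hb (by omega) h0 hx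
  have hG := fun n => G_bounds b (s + 2) n x hb (by omega) h0 hx
  constructor
  · have h1 := hs.summable.sum_add_tsum_nat_add 1
    rw [hs.tsum_eq] at h1
    rw [← h1]
    refine add_pos_of_pos_of_nonneg ?_ (tsum_nonneg fun n => ?_)
    · have := (hG 0).1
      simp only [Finset.range_one, Finset.sum_singleton]
      positivity
    · have := (hG (n + 1)).1
      positivity
  · have h2 : HasSum (fun n : ℕ => 8 * Real.pi ^ 2 * x * (4 / 3 * (b : ℝ) ^ (2 * (s + 2) ^ 2) *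
        x ^ (2 * (s + 2) - 4)) * (1 / ((n : ℝ) + 1) ^ 2))
        (8 * Real.pi ^ 2 * x * (4 / 3 * (b : ℝ) ^ (2 * (s + 2) ^ 2) *
        x ^ (2 * (s + 2) - 4)) * (Real.pi ^ 2 / 6)) := zeta_two_le.mul_left _
    refine (hasSum_le (fun n => ?_) hs h2).trans (le_of_eq ?_)
    · have := (hG n).2
      calc _ ≤ 8 * Real.pi ^ 2 * x * (4 / 3 * (b : ℝ) ^ (2 * (s + 2) ^ 2) *
            x ^ (2 * (s + 2) - 4) * (1 / ((n : ℝ) + 1) ^ 2)) :=
            mul_le_mul_of_nonneg_left this (by positivity)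
        _ = _ := by ring
    · rw [show 2 * (s + 2) - 4 = 2 * s by omega]
      ring

lemma F0_bounds (b s : ℕ) (x : ℝ) (hb : 2 ≤ b) (h0 : 0 < x)
    (hx : x ≤ 1 / (2 * (b : ℝ) ^ (s + 2))) :
    0 < F0 b (s + 2) x ∧
      F0 b (s + 2) x ≤ 2 * Real.pi ^ 4 / 27 * (b : ℝ) ^ (2 * (s + 2) ^ 2) * x ^ (2 * s + 4) := by
  have hb0 : (0 : ℝ) < b := by exact_mod_cast (by omega : 0 < b)
  have hpi := Real.pi_pos
  set X : ℝ := 1 / (2 * (b : ℝ) ^ (s + 2)) with hX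
  set c : ℝ := 16 * Real.pi ^ 4 / 9 * (b : ℝ) ^ (2 * (s + 2) ^ 2) with hc
  have hc0 : 0 < c := by positivity
  have k2 := integ (F2 b (s + 2)) (F3 b (s + 2)) X c (2 * s + 1)
    (fun y hy hy2 => F2_deriv b (s + 2) y hb hy hy2) (F2_lim b (s + 2) hb (by omega))
    (fun y hy hy2 => F3_bounds b s y hb hy hy2)
  have k1 := integ (F1 b (s + 2)) (F2 b (s + 2)) X _ (2 * s + 2)
    (fun y hy hy2 => F1_deriv b (s + 2) y hb hy hy2) (F1_lim b (s + 2)) k2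
  have k0 := integ (F0 b (s + 2)) (F1 b (s + 2)) X _ (2 * s + 3)
    (fun y _ _ => F0_deriv b (s + 2) y) (F0_lim b (s + 2) (by omega)) k1
  have h := k0 x h0 hx
  refine ⟨h.1, h.2.trans ?_⟩
  have hx0 : 0 < x ^ (2 * s + 4) := by positivity
  have e : 2 * Real.pi ^ 4 / 27 * (b : ℝ) ^ (2 * (s + 2) ^ 2) = c / 24 := by
    rw [hc]
    ring
  rw [e]
  apply mul_le_mul_of_nonneg_right _ hx0.le
  rw [div_div, div_div]
  apply div_le_div_of_nonneg_left hc0.le (by norm_num)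
  push_cast
  have hs : (0 : ℝ) ≤ s := Nat.cast_nonneg s
  have h2 : (2 : ℝ) ≤ 2 * s + 1 + 1 := by linarith
  have h3 : (3 : ℝ) ≤ 2 * s + 2 + 1 := by linarith
  have h4 : (4 : ℝ) ≤ 2 * s + 3 + 1 := by linarith
  nlinarith [mul_nonneg (sub_nonneg.2 h2) (sub_nonneg.2 h3), mul_le_mul h3 h4 (by norm_num) (by linarith)]

/-- main theorem -/
theorem four_main (b r q D : ℕ) (hb : 2 ≤ b) (hr : 2 ≤ r) (hq : 2 * b ^ r ≤ q) (hD : 1 ≤ D)
    (hz : ∃ z : ℤ, (D : ℝ) * (C3 0 / Real.pi ^ 3) = z)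
    (h : ∀ i : ℕ, i ≤ r → ∃ z : ℤ, (D : ℝ) * (C3 ((b : ℝ) ^ i / q) / Real.pi ^ 3) = z) :
    4 * ((q : ℝ) / (b : ℝ) ^ r) ^ (2 * r) ≤ D := by
  have hb0 : (0 : ℝ) < b := by exact_mod_cast (by omega : 0 < b)
  have hpi := Real.pi_pos
  have hq0 : (0 : ℝ) < q := by
    have : 0 < b ^ r := by positivity
    exact_mod_cast (by omega : 0 < q)
  have hqr : 2 * (b : ℝ) ^ r ≤ q := by exact_mod_cast hq
  have hD0 : (0 : ℝ) < D := by exact_mod_cast (by omega : 0 < D)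
  obtain ⟨s, rfl⟩ : ∃ s, r = s + 2 := ⟨r - 2, by omega⟩
  have hx : 1 / (q : ℝ) ≤ 1 / (2 * (b : ℝ) ^ (s + 2)) :=
    one_div_le_one_div_of_le (by positivity) hqr
  obtain ⟨hF1, hF2⟩ := F0_bounds b s (1 / (q : ℝ)) hb (by positivity) hx
  obtain ⟨z, hz⟩ := hz
  choose w hw using fun i : Fin (s + 2 + 1) => h i (Nat.lt_succ_iff.1 i.2)
  have hint : ∃ t : ℤ, (D : ℝ) * (F0 b (s + 2) (1 / (q : ℝ)) / Real.pi ^ 3) = t := by
    refine ⟨-(∑ i : Fin (s + 2 + 1), ac b (s + 2) i * w i) +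
      (∑ i ∈ range (s + 2 + 1), ac b (s + 2) i) * z, ?_⟩
    unfold F0
    push_cast
    rw [← A_sum_one b (s + 2) hr, ← hz, Finset.sum_congr rfl (fun i _ => by rw [← hw i] :
      ∀ i ∈ (Finset.univ : Finset (Fin (s + 2 + 1))), (ac b (s + 2) i : ℝ) * (w i : ℝ) =
        (ac b (s + 2) i : ℝ) * ((D : ℝ) * (C3 ((b : ℝ) ^ (i : ℕ) / q) / Real.pi ^ 3))),
      Fin.sum_univ_eq_sum_range (fun i => (ac b (s + 2) i : ℝ) *
        ((D : ℝ) * (C3 ((b : ℝ) ^ i / q) / Real.pi ^ 3))) (s + 2 + 1)]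
    rw [U_three]
    have e : ∀ i ∈ range (s + 2 + 1), (ac b (s + 2) i : ℝ) * U 3 ((b : ℝ) ^ i * (1 / q)) =
        -((ac b (s + 2) i : ℝ) * C3 ((b : ℝ) ^ i / q)) := by
      intro i _
      rw [U_three, mul_one_div]
      ring
    rw [Finset.sum_congr rfl e, Finset.sum_neg_distrib]
    have e2 : ∑ i ∈ range (s + 2 + 1), (ac b (s + 2) i : ℝ) *
        ((D : ℝ) * (C3 ((b : ℝ) ^ i / q) / Real.pi ^ 3)) = (D : ℝ) / Real.pi ^ 3 *
        ∑ i ∈ range (s + 2 + 1), (ac b (s + 2) i : ℝ) * C3 ((b : ℝ) ^ i / q) := by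
      rw [Finset.mul_sum]
      apply Finset.sum_congr rfl
      intro i _
      ring
    rw [e2]
    ring
  obtain ⟨t, ht⟩ := hint
  have hpos : 0 < (D : ℝ) * (F0 b (s + 2) (1 / (q : ℝ)) / Real.pi ^ 3) := by positivity
  have ht1 : (1 : ℝ) ≤ t := by
    rw [ht] at hpos
    exact_mod_cast (by exact_mod_cast hpos : 0 < t)
  rw [← ht] at ht1
  have h1 : F0 b (s + 2) (1 / (q : ℝ)) * ((q : ℝ) / (b : ℝ) ^ (s + 2)) ^ (2 * (s + 2)) ≤
      2 * Real.pi ^ 4 / 27 := by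
    calc F0 b (s + 2) (1 / (q : ℝ)) * ((q : ℝ) / (b : ℝ) ^ (s + 2)) ^ (2 * (s + 2))
        ≤ 2 * Real.pi ^ 4 / 27 * (b : ℝ) ^ (2 * (s + 2) ^ 2) * (1 / (q : ℝ)) ^ (2 * s + 4) *
          ((q : ℝ) / (b : ℝ) ^ (s + 2)) ^ (2 * (s + 2)) :=
          mul_le_mul_of_nonneg_right hF2 (by positivity)
      _ = 2 * Real.pi ^ 4 / 27 := by
          rw [div_pow, div_pow, one_pow, ← pow_mul, show 2 * (s + 2) = 2 * s + 4 by ring,
            show (s + 2) * (2 * s + 4) = 2 * (s + 2) ^ 2 by ring]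
          field_simp
  have hpi4 : Real.pi < 27 / 8 := by
    have := Real.pi_lt_d2
    linarith
  have hT : 0 < ((q : ℝ) / (b : ℝ) ^ (s + 2)) ^ (2 * (s + 2)) := by positivity
  set T : ℝ := ((q : ℝ) / (b : ℝ) ^ (s + 2)) ^ (2 * (s + 2)) with hTdef
  have h2 : Real.pi ^ 3 ≤ (D : ℝ) * F0 b (s + 2) (1 / (q : ℝ)) := by
    have h3 : 0 < Real.pi ^ 3 := by positivity
    rw [← mul_div_assoc, le_div_iff₀ h3, one_mul] at ht1
    exact ht1
  have h3 : Real.pi ^ 3 * T ≤ (D : ℝ) * (2 * Real.pi ^ 4 / 27) := by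
    calc Real.pi ^ 3 * T ≤ (D : ℝ) * F0 b (s + 2) (1 / (q : ℝ)) * T :=
          mul_le_mul_of_nonneg_right h2 hT.le
      _ = (D : ℝ) * (F0 b (s + 2) (1 / (q : ℝ)) * T) := by ring
      _ ≤ _ := mul_le_mul_of_nonneg_left h1 hD0.le
  have h4 : T ≤ (D : ℝ) * (2 * Real.pi / 27) := by
    have h5 : 0 < Real.pi ^ 3 := by positivity
    have h6 : Real.pi ^ 3 * T ≤ Real.pi ^ 3 * ((D : ℝ) * (2 * Real.pi / 27)) := by
      calc Real.pi ^ 3 * T ≤ (D : ℝ) * (2 * Real.pi ^ 4 / 27) := h3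
        _ = _ := by ring
    exact le_of_mul_le_mul_left h6 h5
  nlinarith

lemma half_mul (n : ℕ) : (n - n / 2) * (n / 2) = n ^ 2 / 4 := by
  rcases Nat.even_or_odd' n with ⟨k, hk | hk⟩
  · subst hk
    have h1 : 2 * k / 2 = k := by omega
    rw [h1, show 2 * k - k = k by omega, show (2 * k) ^ 2 = 4 * (k * k) by ring,
      Nat.mul_div_cancel_left _ (by norm_num)]
  · subst hk
    have h1 : (2 * k + 1) / 2 = k := by omega
    rw [h1, show 2 * k + 1 - k = k + 1 by omega, show (2 * k + 1) ^ 2 = 1 + 4 * ((k + 1) * k) by ring,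
      Nat.add_mul_div_left _ _ (by norm_num)]
    norm_num

/-- two-power roots of unity -/
theorem two_power (n D : ℕ) (hn : 3 ≤ n) (hD : 1 ≤ D)
    (hz : ∃ z : ℤ, (D : ℝ) * (C3 0 / Real.pi ^ 3) = z)
    (h : ∀ j : ℕ, n / 2 ≤ j → j ≤ n → ∃ z : ℤ, (D : ℝ) * (C3 (1 / 2 ^ j) / Real.pi ^ 3) = z) :
    4 * 4 ^ (n ^ 2 / 4) ≤ D := by
  have h1 := four_main 2 (n - n / 2) (2 ^ n) D le_rfl (by omega) (by
    rw [← pow_succ']
    exact Nat.pow_le_pow_right (by norm_num) (by omega)) hD hz (by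
    intro i hi
    obtain ⟨z, hz⟩ := h (n - i) (by omega) (by omega)
    refine ⟨z, ?_⟩
    rw [← hz]
    congr 3
    push_cast
    rw [div_eq_div_iff (by positivity) (by positivity), one_mul, ← pow_add]
    congr 1
    omega)
  have h2 : ((((2 ^ n : ℕ) : ℝ)) / ((2 : ℕ) : ℝ) ^ (n - n / 2)) ^ (2 * (n - n / 2)) =
      4 ^ (n ^ 2 / 4) := by
    push_cast
    have e : (2 : ℝ) ^ n / 2 ^ (n - n / 2) = 2 ^ (n / 2) := by
      rw [div_eq_iff (by positivity), ← pow_add]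
      congr 1
      omega
    rw [e, ← pow_mul, show n / 2 * (2 * (n - n / 2)) = 2 * ((n - n / 2) * (n / 2)) by ring,
      half_mul, pow_mul]
    norm_num
  rw [h2] at h1
  exact_mod_cast h1

end Pool.Agent.LibTri68
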