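import Pool.Agent.LibTri68.Lac4

open Filter Topology Finset
open Pool.Agent.LibTri77

namespace Pool.Agent.LibTri68

/-- irrationality criterion -/
theorem criterion
    (h : ∀ ε : ℝ, 0 < ε → ∃ b r q E : ℕ, 2 ≤ b ∧ 2 ≤ r ∧ 2 * b ^ r ≤ q ∧ 1 ≤ E ∧
      (E : ℝ) ≤ ε * ((q : ℝ) / (b : ℝ) ^ r) ^ (2 * r) ∧
      ∀ i : ℕ, i ≤ r → ∃ z : ℤ, (E : ℝ) * (C3 ((b : ℝ) ^ i / q) / Real.pi ^ 3) = z) :
    Irrational (C3 0 / Real.pi ^ 3) := by
  rintro ⟨t, ht⟩
  have hd : (0 : ℝ) < t.den := by exact_mod_cast t.pos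
  obtain ⟨b, r, q, E, hb, hr, hq, hE, hle, hi⟩ := h (1 / t.den) (by positivity)
  have hbr : 0 < b ^ r := by positivity
  have hq0 : (0 : ℝ) < q := by exact_mod_cast (by omega : 0 < q)
  have hT : (0 : ℝ) < ((q : ℝ) / (b : ℝ) ^ r) ^ (2 * r) := by
    have : (0 : ℝ) < b := by exact_mod_cast (by omega : 0 < b)
    positivity
  have h1 := four_main b r q (t.den * E) hb hr hq
    (Nat.mul_pos t.pos hE) (by
      refine ⟨t.num * E, ?_⟩
      rw [← ht]
      have : (t : ℝ) = t.num / t.den := Rat.cast_def t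
      rw [this]
      push_cast
      field_simp) (by
      intro i hir
      obtain ⟨z, hz⟩ := hi i hir
      refine ⟨t.den * z, ?_⟩
      push_cast
      rw [← hz]
      ring)
  push_cast at h1
  have h2 : (t.den : ℝ) * E ≤ ((q : ℝ) / (b : ℝ) ^ r) ^ (2 * r) := by
    calc (t.den : ℝ) * E ≤ t.den * (1 / t.den * ((q : ℝ) / (b : ℝ) ^ r) ^ (2 * r)) :=
          mul_le_mul_of_nonneg_left hle hd.le
      _ = _ := by field_simp
  linarith

end Pool.Agent.LibTri68
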